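import Pool.Agent.Q213.PN.H

/-!
# Pseudocompact group topologies which are not selectively pseudocompact
-/

set_option autoImplicit false

universe u

namespace Pool.Agent.Results.MP_b5ec3e_gt.NotSelective

/-- Every continuous real function is bounded. -/
def Pseudocompact (X : Type u) [TopologicalSpace X] : Prop :=
  ∀ f : X → ℝ, Continuous f → ∃ M : ℝ, ∀ x, |f x| ≤ M

/-- For every sequence of nonempty open sets `U n` there are points `x n ∈ U n` such that the
sequence `x` has an accumulation point `a`: every neighbourhood of `a` contains `x n` for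
infinitely many `n`. -/
def SelectivelyPseudocompact (X : Type u) [TopologicalSpace X] : Prop :=
  ∀ U : ℕ → Set X, (∀ n, IsOpen (U n) ∧ (U n).Nonempty) →
    ∃ x : ℕ → X, (∀ n, x n ∈ U n) ∧
      ∃ a : X, ∀ O : Set X, IsOpen O → a ∈ O → {n | x n ∈ O}.Infinite

/-- In ZFC, every infinite abelian group which admits a pseudocompact Hausdorff group topology
admits a pseudocompact Hausdorff group topology which is not selectively pseudocompact. -/
theorem result (G : Type u) [AddCommGroup G] [Infinite G]
    (h : ∃ τ : TopologicalSpace G, @IsTopologicalAddGroup G τ _ ∧ @T2Space G τ ∧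
      @Pseudocompact G τ) :
    ∃ σ : TopologicalSpace G, @IsTopologicalAddGroup G σ _ ∧ @T2Space G σ ∧
      @Pseudocompact G σ ∧ ¬ @SelectivelyPseudocompact G σ := by
  obtain ⟨τ, h1, h2, h3⟩ := h
  exact Pool.Agent.Q213.PN.main G h3

end Pool.Agent.Results.MP_b5ec3e_gt.NotSelective
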